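import Pool.Agent.MP_d958de_lc.Mg.H67_Main

open Pool.Agent.MP_0cee90_lc.H63F Pool.Agent.MP_d958de_lc.H67

namespace Pool.Agent.Results.MP_d958de_lc.PolyModulusApprox

/-- For `d ≤ m ^ A` one program of the real RAM computes the product of the unnormalised Fourier
submatrix with `v`, for every set of rows, up to the error `‖v‖₁ / d ^ K` in each coordinate, and its
mean running time over all `m`-element sets of rows is at most `c m ^ (2 - δ)`. -/
theorem result (A K : ℕ) : ∃ (P : Prog) (δ c : ℝ), 0 < δ ∧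
    ∀ (m d : ℕ) (C : Finset ℕ) (v : ℕ → ℂ), 1 ≤ m → m ≤ d → d ≤ m ^ A → C ⊆ Finset.range d →
      C.card = m → ∃ T : Finset ℕ → ℕ,
        (∀ R ∈ (Finset.range d).powersetCard m, ∃ M, Run P (input d R C v) M (T R) ∧ ∀ i < m,
          ‖output M i - ∑ k ∈ C, Complex.exp (-(2 * Real.pi * Complex.I * el R i * k / d)) * v k‖ ≤
            (∑ k ∈ C, ‖v k‖) / d ^ K) ∧
        (∑ R ∈ (Finset.range d).powersetCard m, (T R : ℝ)) / d.choose m ≤
          c * (m : ℝ) ^ (2 - δ) := by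
  obtain ⟨P, δ, c, h0, h⟩ := main A K
  refine ⟨P, δ, c, h0, fun m d C v h1 h2 h3 h4 h5 => ?_⟩
  obtain ⟨T, a, b⟩ := h m d C v h1 h2 h3 h4 h5
  exact ⟨T, a, (div_le_iff₀' (by exact_mod_cast Nat.choose_pos h2)).2 b⟩

end Pool.Agent.Results.MP_d958de_lc.PolyModulusApprox
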