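import Pool.Agent.MP_d958de_lc.Mg.Final
import Pool.Agent.MP_d958de_lc.Naive

open Pool.Agent.MP_d958de_lc Filter MeasureTheory

namespace Pool.Agent.Results.MP_d958de_lc.QuadraticLowerBound

/-- Sanity check: the model has a deterministic algorithm for the task, running in `3 m²` steps. -/
theorem model_has_quadratic_algorithm : ∃ (σ : Type) (A : Alg σ Unit),
    A.Computes (Measure.dirac ()) ∧
    ∀ (d : ℕ) (R C : Finset ℕ) (v : ℕ → ℂ), C ⊆ Finset.range d →
      A.time d R C v () ≤ 3 * (R.card * C.card) :=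
  ⟨_, naive, naive_computes, naive_time⟩

/-- The negated form of Q1, for all large `m`, for deterministic and randomised algorithms. -/
theorem result {σ Ω : Type} [MeasurableSpace Ω] (P : Measure Ω) [IsProbabilityMeasure P]
    (A : Alg σ Ω) (hA : A.Computes P) (T : ℕ → ℝ) (hT : T =o[atTop] fun m => (m : ℝ) ^ 2) :
    (∀ᶠ m : ℕ in atTop, ∃ (d : ℕ) (C : Finset ℕ) (v : ℕ → ℂ),
      m ≤ d ∧ C ⊆ Finset.range d ∧ C.card = m ∧
        ENNReal.ofReal (T m) < A.expectedTime P d C v) ∧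
    ∀ c : ℝ, 0 < c → ∀ᶠ m : ℕ in atTop, ∃ (d : ℕ) (C : Finset ℕ) (v : ℕ → ℂ),
      m ≤ d ∧ C ⊆ Finset.range d ∧ C.card = m ∧
        ENNReal.ofReal ((m : ℝ) ^ (-c)) < A.probExceeds P d C v (T m) :=
  negated_form P A hA T hT

end Pool.Agent.Results.MP_d958de_lc.QuadraticLowerBound
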