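import Pool.Agent.MP_d958de_lc.Mg.H67_RedRam

open Pool.Agent.MP_0cee90_lc.H63F Pool.Agent.MP_d958de_lc.H67 Finset

namespace Pool.Agent.Results.MP_d958de_lc.WorstToRandomRows

/-- The approximate product with worst-case rows `R` reduces to `J` approximate products with
modulus `D`, columns `κ` that do not depend on `R` or on the coins `σ`, and rows `ρ σ k` whose law is
at most twice the uniform law; `J` and `log D` are polylogarithmic in `d`, and both programs run in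
time `m` times a polylogarithm. -/
theorem result : ∃ (Pre Post : Prog) (e : ℕ), ∀ (m d : ℕ) (C : Finset ℕ), 1 ≤ m →
    C ⊆ range d → C.card = m → ∃ (J D l : ℕ) (κ : ℕ → ℕ),
      J ≤ (Nat.clog 2 d + 2) ^ e ∧ D ≤ 2 ^ (Nat.clog 2 d + 2) ^ e ∧ l ≤ m * (Nat.clog 2 d + 2) ^ e ∧
      (range m).image κ ∈ (range D).powersetCard m ∧
      ∀ R ∈ (range d).powersetCard m, ∃ ρ : ℕ → ℕ → ℕ → ℕ,
        (∀ σ, ∃ M t, Run Pre (coinInput d R C σ) M t ∧ t ≤ m * (Nat.clog 2 d + 2) ^ e ∧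
          M.N 8 0 = D ∧ M.N 8 1 = J ∧ M.N 8 2 = l ∧ (∀ j < m, M.N 8 (3 + j) = κ j) ∧
          ∀ k < J, ∀ i < m, M.N 8 (3 + m + (k * m + i)) = ρ σ k i) ∧
        (∀ k < J, ∀ S ∈ (range D).powersetCard m,
          ((range (2 ^ l)).filter fun σ => (range m).image (ρ σ k) = S).card * D.choose m ≤
            2 * 2 ^ l) ∧
        ((range (2 ^ l)).filter fun σ =>
          ∃ k < J, (range m).image (ρ σ k) ∉ (range D).powersetCard m).card * d ≤ 2 ^ l ∧
        ∀ (σ : ℕ) (v : ℕ → ℂ) (a : ℕ → ℕ → ℂ),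
          (∀ k < J, ∀ i < m, ‖a k i - ∑ j ∈ range m,
            Complex.exp (-(2 * Real.pi * Complex.I * ρ σ k i * κ j / D)) * v (el C j)‖ ≤
              (∑ c ∈ C, ‖v c‖) / D) →
          ∃ M t, Run Post (ansInput d m J a) M t ∧ t ≤ m * (Nat.clog 2 d + 2) ^ e ∧ ∀ i < m,
            ‖output M i - ∑ c ∈ C,
              Complex.exp (-(2 * Real.pi * Complex.I * el R i * c / d)) * v c‖ ≤
              (∑ c ∈ C, ‖v c‖) / d :=
  reduction

end Pool.Agent.Results.MP_d958de_lc.WorstToRandomRows
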